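import Pool.Agent.KS6_65.RE.Main

set_option autoImplicit false

namespace Pool.Agent.Results.MP_cacfbf_al.EveryOddPrime

open Pool.Agent.KS6_65.RE

/-- For every odd prime `p` and every field `F` of characteristic `p` there is a (three-dimensional,
nilpotent) Lie `p`-algebra `L` over `F` and a PI subalgebra `R` of `u(L)` with `n(R) = 2`, which is
not a power of `p`. -/
theorem result (p : ℕ) (hp : p.Prime) (hp2 : p ≠ 2) (F : Type) [Field F] [CharP F p] :
    ∃ (L : Type) (_ : LieRing L) (_ : LieAlgebra F L) (f : L → L),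
      IsPMap F L p f ∧ Module.finrank F L = 3 ∧ (∀ x y z : L, ⁅⁅x, y⁆, z⁆ = 0) ∧
      ∃ R : NonUnitalSubalgebra F (RU F L p f), IsPI R ∧ IsDeg R 2 ∧ ¬ ∃ k : ℕ, 2 = p ^ k := by
  haveI : Fact p.Prime := ⟨hp⟩
  obtain ⟨R, h1, h2⟩ := main F p hp2
  refine ⟨H3 F, inferInstance, inferInstance, pm p, isPMap F p hp2, ?_, fun x y z => ?_, R, h1, h2,
    ?_⟩
  · exact Module.finrank_fin_fun F
  · rw [lie_def x y, cen_lie]
  · rintro ⟨k, hk⟩
    rcases k with _ | k
    · norm_num at hk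
    · have h3 : p ∣ 2 := hk ▸ dvd_pow_self p (Nat.succ_ne_zero k)
      exact hp2 ((Nat.prime_dvd_prime_iff_eq hp Nat.prime_two).1 h3)

end Pool.Agent.Results.MP_cacfbf_al.EveryOddPrime
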